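/-
helper10 (with helper12, helper20, helper43, helper47, helper58, helper59, helper90).
MP_b95bd9_al, Q1: permutation stability of finitely generated metabelian groups.

We prove it for all groups G = F/([R,R]R^m), where F is a free group of finite rank, R a normal
subgroup of F with F/R abelian, and m ≥ 0.  For R = [F,F] and m = 0 these are the free metabelian
groups of finite rank; for R = [F,F]F^n they are the relatively free groups of the product
varieties A_m A_n.
-/
import Pool.Agent.H10.PS.Fin

set_option autoImplicit false

open Filter Topology

namespace Pool.Agent.Results.MP_b95bd9_al.FreeMetabelian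

/-- Let `F` be the free group on `r` letters, `R` a normal subgroup of `F` containing `[F,F]`, let
`m ≥ 0`, and let `G` be a group with a surjective homomorphism `π : F → G` whose kernel is
`[R,R] R^m` (so `G` is metabelian; `R = [F,F]`, `m = 0` gives the free metabelian group of
rank `r`).  Then `G` is permutation stable, in the formulation of the frozen statement `S02853`:
maps `G → Sym(n_k)` which are asymptotically multiplicative in the normalized Hamming distance are
pointwise close to homomorphisms `G → Sym(n_k)`. -/
theorem result (r m : ℕ) (R : Subgroup (FreeGroup (Fin r))) (hR : R.Normal)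
    (hab : commutator (FreeGroup (Fin r)) ≤ R)
    (G : Type) [Group G] (π : FreeGroup (Fin r) →* G) (hπ : Function.Surjective π)
    (hker : π.ker = ⁅R, R⁆ ⊔ Subgroup.closure {w | ∃ a ∈ R, w = a ^ m})
    (n : ℕ → ℕ) (f : ∀ k : ℕ, G → Equiv.Perm (Fin (n k)))
    (hf : ∀ g h : G, Tendsto
      (fun k : ℕ => ((Finset.univ.filter
        (fun i : Fin (n k) => f k (g * h) i ≠ (f k g * f k h) i)).card : ℝ) / (n k : ℝ))
      atTop (𝓝 0)) :
    ∃ φ : ∀ k : ℕ, G →* Equiv.Perm (Fin (n k)),
      ∀ g : G, Tendsto
        (fun k : ℕ => ((Finset.univ.filter
          (fun i : Fin (n k) => f k g i ≠ φ k g i)).card : ℝ) / (n k : ℝ))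
        atTop (𝓝 0) :=
  Pool.Agent.H10.PS.FIN r m R hR hab G π hπ hker n f hf

end Pool.Agent.Results.MP_b95bd9_al.FreeMetabelian
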