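/-
helper10 (with helper2, helper20, helper21, helper34, helper36, helper47, helper97, and the authors
of the modules of MP_b95bd9_al.FreeMetabelian).
MP_b95bd9_al, Q1: permutation stability of finitely generated metabelian groups, rank one case.
-/
import Pool.Agent.H10.PB.FinB

set_option autoImplicit false

open Filter Topology

namespace Pool.Agent.Results.MP_b95bd9_al.RankOne

/-- Let `G` be a finitely generated group and `M` an abelian subgroup of `G` which contains the
commutator subgroup (so `G` is metabelian), such that the abelian group `G/M` has torsion-free rank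
at most one: some cyclic subgroup of `G/M` has finite index in `G/M`, i.e. `M⟨t⟩` has finite index
in `G` for some `t ∈ G`.  Then `G` is permutation stable, in the formulation of the frozen
statement `S02853`.  With `M = [G,G]`: every finitely generated metabelian group whose
abelianization has torsion-free rank at most one is permutation stable.  Also included: all
finitely generated abelian-by-cyclic groups. -/
theorem result (G : Type) [Group G] (hG : Group.FG G) (M : Subgroup G)
    (hM : ∀ a ∈ M, ∀ b ∈ M, a * b = b * a) (hc : commutator G ≤ M)
    (t : G) (ht : (M ⊔ Subgroup.zpowers t).FiniteIndex)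
    (n : ℕ → ℕ) (f : ∀ k : ℕ, G → Equiv.Perm (Fin (n k)))
    (hf : ∀ g h : G, Tendsto
      (fun k : ℕ => ((Finset.univ.filter
        (fun i : Fin (n k) => f k (g * h) i ≠ (f k g * f k h) i)).card : ℝ) / (n k : ℝ))
      atTop (𝓝 0)) :
    ∃ φ : ∀ k : ℕ, G →* Equiv.Perm (Fin (n k)),
      ∀ g : G, Tendsto
        (fun k : ℕ => ((Finset.univ.filter
          (fun i : Fin (n k) => f k g i ≠ φ k g i)).card : ℝ) / (n k : ℝ))
        atTop (𝓝 0) :=
  Pool.Agent.H10.PB.FINB G hG M hM hc t ht n f hf

end Pool.Agent.Results.MP_b95bd9_al.RankOne
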