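/-
helper6 (with the authors of the modules of S02854: helper6, 36, 54, 78, 87; central factor trick by
helper38).
MP_b95bd9_al, Q1, negative answer in the words of the problem file.
-/
import Pool.Agent.H6.MSL.Large

set_option autoImplicit false

namespace Pool.Agent.Results.MP_b95bd9_al.WordsUnstable

open Pool.Agent.H6.MS Pool.Agent.H6.MSL

/-- For every prime `p ≥ P` the group `G p VV` is finitely generated and metabelian, and for every
presentation `F/N` of it, `F` free of finite rank `k`, the group `F/N` is not permutation stable in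
the words of the problem file (`PStable`).  `G p VV` is the permutational wreath product of `ZMod p`
and `ℤ³` over the disjoint union of a fixed point and of the eight `ℤ³`-sets `ℤ³ ⧸ VV i`, where
`VV i` is the kernel of `x`; `y`; `x + y`; `(x,y)`; `(z,y)`; `(x+z,y)`; `(x,z)`; `(x,y+z)`. -/
theorem result : ∃ P : ℕ, ∀ p : ℕ, p.Prime → P ≤ p →
    Group.FG (G p VV) ∧
    (∀ a ∈ commutator (G p VV), ∀ b ∈ commutator (G p VV), a * b = b * a) ∧
    ∀ (k : ℕ) (π : FreeGroup (Fin k) →* G p VV), Function.Surjective π → ¬ PStable k π.ker := by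
  obtain ⟨P, hP⟩ := contra_one
  refine ⟨P, fun p hp hPp => ?_⟩
  have : Fact p.Prime := ⟨hp⟩
  have : NeZero p := ⟨hp.ne_zero⟩
  refine ⟨Pool.Agent.H36.MS.fg_G p VV, fun a ha b hb => ?_, fun k π hπ hst => ?_⟩
  · have h1 : derivedSeries (G p VV) 2 = ⊥ := Pool.Agent.H36.MS.metab_G p VV
    have h2 : ⁅commutator (G p VV), commutator (G p VV)⁆ = ⊥ := by
      rw [derivedSeries_succ, derivedSeries_one] at h1
      exact h1
    rw [Subgroup.commutator_eq_bot_iff_le_centralizer] at h2
    exact (Subgroup.mem_centralizer_iff.mp (h2 ha) b hb).symm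
  · exact hP p hPp fun f hf W ε hε =>
      periodic_one p 8 VV (seqStable_of_pStable π hπ hst) f hf W ε hε

end Pool.Agent.Results.MP_b95bd9_al.WordsUnstable
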